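import Pool.Agent.N495.HS.HexB

/-!
# Project HS, leaf HEX: in representations of the group of type `A₂` almost invariant vectors are
close to invariant vectors
-/

set_option autoImplicit false

namespace Pool.Agent.N495.HS

open Pool.Agent.N298.HS

variable {R : Type} [CommRing R] {H : Type} [NormedAddCommGroup H] [InnerProductSpace ℂ H]

/-- halving of the displacements -/
theorem half (h1 : S_HEIS) (h2 : S_OCT) [CompleteSpace H] {x : Fin 6 → R → (H ≃ₗᵢ[ℂ] H)}
    {σ : Fin 6 → R} (hx : Hex x σ) (δ : ℝ) (hδ : 0 ≤ δ) (v : H)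
    (hv : ∀ i r, ‖x i r v - v‖ ≤ δ) :
    ∃ v' : H, (∀ i r, ‖x i r v' - v'‖ ≤ δ / 2) ∧ ‖v' - v‖ ≤ 16000003 * δ := by
  set P : Fin 6 → H →L[ℂ] H := fun i => Q (x i) with hP
  have hPr : Pr P :=
    ⟨fun i => Q_idem _, fun i => Q_symm _, fun i => hx.c1 i, fun i => hx.c4 i⟩
  have hn : ∀ i, ‖v - P i v‖ ≤ δ := fun i => near (x i) (hx.add i) v δ (hv i)
  have hPn : ∀ i w, ‖P i w‖ ≤ ‖w‖ := fun i => Q_norm _
  have hPW : ∀ i, ‖v - PW P i v‖ ≤ 3 * δ := by
    intro i
    have e1 : v - PW P i v = (v - P (i - 1) v) + (P (i - 1) ((v - P (i + 1) v) +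
        P (i + 1) (v - P i v))) := by
      unfold PW
      simp only [map_add, map_sub]
      abel
    rw [e1]
    have h3 := norm_add_le (v - P (i - 1) v) (P (i - 1) ((v - P (i + 1) v) +
        P (i + 1) (v - P i v)))
    have h4 := hPn (i - 1) ((v - P (i + 1) v) + P (i + 1) (v - P i v))
    have h5 := norm_add_le (v - P (i + 1) v) (P (i + 1) (v - P i v))
    have h6 := hPn (i + 1) (v - P i v)
    have h7 := hn (i - 1)
    have h8 := hn (i + 1)
    have h9 := hn i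
    linarith
  set f : Fin 6 → H := fun i => PW P i v with hf
  have hfW : InW P f := fun i => PW_mem hPr i v
  have hE : En f ≤ 432 * δ ^ 2 := by
    have h3 : ∀ i j, ‖f i - f j‖ ^ 2 ≤ 36 * δ ^ 2 := by
      intro i j
      have h4 : ‖f i - f j‖ ≤ 6 * δ := by
        have h5 : f i - f j = (v - f j) - (v - f i) := by abel
        rw [h5]
        have h6 := norm_sub_le (v - f j) (v - f i)
        have h7 := hPW i
        have h8 := hPW j
        linarith
      nlinarith [norm_nonneg (f i - f j)]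
    calc En f ≤ ∑ _i : Fin 6, (36 * δ ^ 2 + 36 * δ ^ 2) :=
          Finset.sum_le_sum fun i _ => add_le_add (h3 _ _) (h3 _ _)
      _ = 432 * δ ^ 2 := by
          rw [Finset.sum_const, Finset.card_univ, Fintype.card_fin, nsmul_eq_mul]
          push_cast
          ring
  obtain ⟨g, hg, hgN, hgd⟩ := descent hPr hfW δ hδ hE 2000000 (by norm_num)
  have hoct := h2 H P hPr.idem hPr.symm hPr.c1 hPr.c4
    (fun i v w hv hw hv1 hw1 => hx.c3 h1 i v w hv hw hv1 hw1) g (fun i => (hg i).1)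
    (fun i => (hg i).2.1) (fun i => (hg i).2.2)
  have hoct' : ∑ i, (‖g (i + 2) - P i (g (i + 2))‖ ^ 2 + ‖g (i - 2) - P i (g (i - 2))‖ ^ 2) ≤
      (δ / 16) ^ 2 := by
    refine hoct.trans ?_
    have : ∑ i, ‖P (i - 1) (P (i + 1) (P i ((4 : ℂ) • g i - g (i + 1) - g (i + 2) - g (i - 1) -
        g (i - 2))))‖ ^ 2 = Nm (Gr P g) := rfl
    rw [this]
    linarith
  have h4 : ‖g 0 - P 4 (g 0)‖ ≤ δ / 16 := by
    have h5 : ‖g (4 + 2) - P 4 (g (4 + 2))‖ ^ 2 + ‖g (4 - 2) - P 4 (g (4 - 2))‖ ^ 2 ≤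
        (δ / 16) ^ 2 := le_trans
      (Finset.single_le_sum (f := fun i => (‖g (i + 2) - P i (g (i + 2))‖ ^ 2 +
        ‖g (i - 2) - P i (g (i - 2))‖ ^ 2)) (fun i _ => by positivity)
        (Finset.mem_univ (4 : Fin 6))) hoct'
    have h6 : ((4 : Fin 6) + 2) = 0 := by decide
    rw [h6] at h5
    have h7 : ‖g 0 - P 4 (g 0)‖ ^ 2 ≤ (δ / 16) ^ 2 := by
      have := sq_nonneg ‖g (4 - 2) - P 4 (g (4 - 2))‖
      linarith
    exact (sq_le_sq₀ (norm_nonneg _) (by positivity)).1 h7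
  have h2' : ‖g 0 - P 2 (g 0)‖ ≤ δ / 16 := by
    have h5 : ‖g (2 + 2) - P 2 (g (2 + 2))‖ ^ 2 + ‖g (2 - 2) - P 2 (g (2 - 2))‖ ^ 2 ≤
        (δ / 16) ^ 2 := le_trans
      (Finset.single_le_sum (f := fun i => (‖g (i + 2) - P i (g (i + 2))‖ ^ 2 +
        ‖g (i - 2) - P i (g (i - 2))‖ ^ 2)) (fun i _ => by positivity)
        (Finset.mem_univ (2 : Fin 6))) hoct'
    have h6 : ((2 : Fin 6) - 2) = 0 := by decide
    rw [h6] at h5
    have h7 : ‖g 0 - P 2 (g 0)‖ ^ 2 ≤ (δ / 16) ^ 2 := by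
      have := sq_nonneg ‖g (2 + 2) - P 2 (g (2 + 2))‖
      linarith
    exact (sq_le_sq₀ (norm_nonneg _) (by positivity)).1 h7
  have d0 : ∀ r, x 0 r (g 0) = g 0 := (Q_eq _ _).1 (hg 0).1
  have d5 : ∀ r, x 5 r (g 0) = g 0 := by
    have h5 := (hg 0).2.1
    have h6 : ((0 : Fin 6) - 1) = 5 := by decide
    rw [h6] at h5
    exact (Q_eq _ _).1 h5
  have d1 : ∀ r, x 1 r (g 0) = g 0 := by
    have h5 := (hg 0).2.2
    have h6 : ((0 : Fin 6) + 1) = 1 := by decide
    rw [h6] at h5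
    exact (Q_eq _ _).1 h5
  have d2 : ∀ r, ‖x 2 r (g 0) - g 0‖ ≤ δ / 8 := by
    intro r
    have h5 := disp (x 2) (g 0) r
    have h6 : ‖g 0 - Q (x 2) (g 0)‖ ≤ δ / 16 := h2'
    linarith
  have d4 : ∀ r, ‖x 4 r (g 0) - g 0‖ ≤ δ / 8 := by
    intro r
    have h5 := disp (x 4) (g 0) r
    have h6 : ‖g 0 - Q (x 4) (g 0)‖ ≤ δ / 16 := h4
    linarith
  have d3 : ∀ r, ‖x 3 r (g 0) - g 0‖ ≤ δ / 2 := by
    intro r
    have hm : ∀ w : H, x 2 (σ 2 * r) (x 4 1 w) = x 3 r (x 4 1 (x 2 (σ 2 * r) w)) := by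
      intro w
      have h5 := hx.mul' 2 (σ 2 * r) 1 w
      have h6 : ((2 : Fin 6) + 2) = 4 := by decide
      have h7 : ((2 : Fin 6) + 1) = 3 := by decide
      have h8 : σ 2 * (σ 2 * r) * 1 = r := by
        rw [mul_one, ← mul_assoc, hx.sq, one_mul]
      rw [h6, h7, h8] at h5
      exact h5
    set a := x 2 (σ 2 * r) with ha
    set b := x 4 1 with hb
    set c := x 3 r with hc
    set w := g 0 with hw
    have ha1 : ‖a w - w‖ ≤ δ / 8 := d2 _
    have hb1 : ‖b w - w‖ ≤ δ / 8 := d4 _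
    have h5 : ‖b (a w) - w‖ ≤ δ / 4 := by
      have h6 : b (a w) - w = b (a w - w) + (b w - w) := by
        rw [map_sub]; abel
      rw [h6]
      have h7 := norm_add_le (b (a w - w)) (b w - w)
      rw [b.norm_map] at h7
      linarith
    have h8 : ‖a (b w) - w‖ ≤ δ / 4 := by
      have h6 : a (b w) - w = a (b w - w) + (a w - w) := by
        rw [map_sub]; abel
      rw [h6]
      have h7 := norm_add_le (a (b w - w)) (a w - w)
      rw [a.norm_map] at h7
      linarith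
    have h9 : c w - w = (a (b w) - w) - c (b (a w) - w) := by
      rw [map_sub, ← hm w]
      abel
    rw [h9]
    have h10 := norm_sub_le (a (b w) - w) (c (b (a w) - w))
    rw [c.norm_map] at h10
    linarith
  refine ⟨g 0, ?_, ?_⟩
  · intro i r
    have hi : i = 0 ∨ i = 1 ∨ i = 2 ∨ i = 3 ∨ i = 4 ∨ i = 5 := by
      revert i
      decide
    rcases hi with rfl | rfl | rfl | rfl | rfl | rfl
    · rw [d0, sub_self, norm_zero]; positivity
    · rw [d1, sub_self, norm_zero]; positivity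
    · exact (d2 r).trans (by linarith)
    · exact d3 r
    · exact (d4 r).trans (by linarith)
    · rw [d5, sub_self, norm_zero]; positivity
  · have h5 : g 0 - v = (g 0 - f 0) - (v - f 0) := by abel
    rw [h5]
    have h6 := norm_sub_le (g 0 - f 0) (v - f 0)
    have h7 : ‖v - f 0‖ ≤ 3 * δ := hPW 0
    push_cast at hgd
    linarith

theorem t_hex (h1 : S_HEIS) (h2 : S_OCT) : S_HEX := by
  refine ⟨32000006, by norm_num, ?_⟩
  intro R _ H _ _ _ x σ hsq hadd hcom hmul δ ξ hξ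
  have hx : Hex x σ := ⟨hsq, hadd, hcom, hmul⟩
  have hδ : 0 ≤ δ := (norm_nonneg _).trans (hξ 0 0)
  choose! S hS hS' using fun (v : H) (d : ℝ) (hd : 0 ≤ d) (hv : ∀ i r, ‖x i r v - v‖ ≤ d) =>
    half h1 h2 hx d hd v hv
  let u : ℕ → H := fun n => Nat.rec ξ (fun k w => S w (δ / 2 ^ k)) n
  have u0 : u 0 = ξ := rfl
  have us : ∀ n, u (n + 1) = S (u n) (δ / 2 ^ n) := fun n => rfl
  have hdn : ∀ n : ℕ, 0 ≤ δ / 2 ^ n := fun n => by positivity
  have hu : ∀ n, ∀ i r, ‖x i r (u n) - u n‖ ≤ δ / 2 ^ n := by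
    intro n
    induction n with
    | zero => simpa [u0] using hξ
    | succ n ih =>
      intro i r
      rw [us]
      have h3 := hS (u n) (δ / 2 ^ n) (hdn n) ih i r
      have h4 : δ / 2 ^ (n + 1) = δ / 2 ^ n / 2 := by
        rw [pow_succ]
        field_simp
      rw [h4]
      exact h3
  have hdist : ∀ n, dist (u n) (u (n + 1)) ≤ (32000006 * δ) / 2 / 2 ^ n := by
    intro n
    rw [us, dist_comm, dist_eq_norm]
    refine (hS' (u n) (δ / 2 ^ n) (hdn n) (hu n)).trans ?_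
    apply le_of_eq
    ring
  obtain ⟨η, hη⟩ := cauchySeq_tendsto_of_complete (cauchySeq_of_le_geometric_two hdist)
  refine ⟨η, ?_, ?_⟩
  · have h3 := dist_le_of_le_geometric_two_of_tendsto₀ hdist hη
    rw [u0, dist_comm, dist_eq_norm] at h3
    exact h3
  · intro i r
    have h3 : Filter.Tendsto (fun n => ‖x i r (u n) - u n‖) Filter.atTop
        (nhds ‖x i r η - η‖) :=
      ((((x i r).continuous.tendsto η).comp hη).sub hη).norm
    have h4 : Filter.Tendsto (fun n : ℕ => δ / 2 ^ n) Filter.atTop (nhds 0) := by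
      have h5 := (tendsto_pow_atTop_nhds_zero_of_lt_one (r := (1 / 2 : ℝ)) (by norm_num)
        (by norm_num)).const_mul δ
      rw [mul_zero] at h5
      refine h5.congr fun n => ?_
      rw [one_div, inv_pow]
      rfl
    have h5 : ‖x i r η - η‖ ≤ 0 := le_of_tendsto_of_tendsto' h3 h4 fun n => hu n i r
    exact sub_eq_zero.1 (norm_eq_zero.1 (le_antisymm h5 (norm_nonneg _)))

end Pool.Agent.N495.HS
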