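import Pool.Agent.N298.HS.StmB

/-!
# Project HS, leaf HEX, part A: fixed vectors of root subgroups and their projections
-/

set_option autoImplicit false

namespace Pool.Agent.N495.HS

variable {R : Type} [CommRing R] {H : Type} [NormedAddCommGroup H] [InnerProductSpace ℂ H]

/-- the fixed vectors -/
def V (X : R → (H ≃ₗᵢ[ℂ] H)) : Submodule ℂ H where
  carrier := {v | ∀ r, X r v = v}
  add_mem' := by
    intro a b ha hb r
    rw [map_add, ha r, hb r]
  zero_mem' := by
    intro r
    rw [map_zero]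
  smul_mem' := by
    intro c a ha r
    rw [map_smul, ha r]

omit [CommRing R] in
theorem mem_V (X : R → (H ≃ₗᵢ[ℂ] H)) (v : H) : v ∈ V X ↔ ∀ r, X r v = v := Iff.rfl

theorem V_closed (X : R → (H ≃ₗᵢ[ℂ] H)) : IsClosed (V X : Set H) := by
  have h : (V X : Set H) = ⋂ r, {v | X r v = v} := by
    ext v
    simp only [SetLike.mem_coe, mem_V, Set.mem_iInter, Set.mem_ofPred_eq]
  rw [h]
  exact isClosed_iInter fun r => isClosed_eq (X r).continuous continuous_id

variable [CompleteSpace H]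

/-- the orthogonal projection to the fixed vectors -/
noncomputable def Q (X : R → (H ≃ₗᵢ[ℂ] H)) : H →L[ℂ] H :=
  haveI : CompleteSpace (V X) := (V_closed X).isComplete.completeSpace_coe
  (V X).starProjection

theorem Q_mem (X : R → (H ≃ₗᵢ[ℂ] H)) (v : H) (r : R) : X r (Q X v) = Q X v := by
  have : CompleteSpace (V X) := (V_closed X).isComplete.completeSpace_coe
  exact (V X).starProjection_apply_mem v r

theorem Q_eq (X : R → (H ≃ₗᵢ[ℂ] H)) (v : H) : Q X v = v ↔ ∀ r, X r v = v := by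
  have : CompleteSpace (V X) := (V_closed X).isComplete.completeSpace_coe
  exact (V X).starProjection_eq_self_iff

theorem Q_idem (X : R → (H ≃ₗᵢ[ℂ] H)) (v : H) : Q X (Q X v) = Q X v :=
  (Q_eq X _).2 (Q_mem X v)

theorem Q_symm (X : R → (H ≃ₗᵢ[ℂ] H)) (v w : H) : inner ℂ (Q X v) w = inner ℂ v (Q X w) := by
  have : CompleteSpace (V X) := (V_closed X).isComplete.completeSpace_coe
  exact (V X).inner_starProjection_left_eq_right v w

theorem Q_norm (X : R → (H ≃ₗᵢ[ℂ] H)) (v : H) : ‖Q X v‖ ≤ ‖v‖ := by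
  have : CompleteSpace (V X) := (V_closed X).isComplete.completeSpace_coe
  exact (V X).norm_starProjection_apply_le v

theorem Q_min (X : R → (H ≃ₗᵢ[ℂ] H)) (v u : H) (hu : ∀ r, X r u = u) : ‖v - Q X v‖ ≤ ‖v - u‖ := by
  have : CompleteSpace (V X) := (V_closed X).isComplete.completeSpace_coe
  have h := (V X).starProjection_minimal v
  show ‖v - (V X).starProjection v‖ ≤ _
  rw [h]
  exact ciInf_le (f := fun x : V X => ‖v - x‖)
    ⟨0, by rintro _ ⟨y, rfl⟩; exact norm_nonneg _⟩ (⟨u, hu⟩ : V X)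

omit [CompleteSpace H] in
theorem x_zero (X : R → (H ≃ₗᵢ[ℂ] H)) (hX : ∀ r s, X (r + s) = X r * X s) : X 0 = 1 := by
  have h := hX 0 0
  rw [add_zero] at h
  exact (mul_eq_left.1 h.symm)

omit [CompleteSpace H] in
theorem x_neg (X : R → (H ≃ₗᵢ[ℂ] H)) (hX : ∀ r s, X (r + s) = X r * X s) (r : R) (v : H) :
    X r (X (-r) v) = v := by
  have h := hX r (-r)
  rw [add_neg_cancel, x_zero X hX] at h
  have h2 := congrArg (fun T : H ≃ₗᵢ[ℂ] H => T v) h
  exact h2.symm

omit [CompleteSpace H] in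
theorem x_neg' (X : R → (H ≃ₗᵢ[ℂ] H)) (hX : ∀ r s, X (r + s) = X r * X s) (r : R) (v : H) :
    X (-r) (X r v) = v := by
  have h := x_neg X hX (-r) v
  rwa [neg_neg] at h

omit [CompleteSpace H] in
theorem x_inner (X : R → (H ≃ₗᵢ[ℂ] H)) (hX : ∀ r s, X (r + s) = X r * X s) (r : R) (v w : H) :
    inner ℂ (X r v) w = inner ℂ v (X (-r) w) := by
  have h := (X (-r)).inner_map_map (X r v) w
  rw [x_neg' X hX] at h
  exact h.symm

/-- almost fixed vectors are close to fixed vectors -/
theorem near (X : R → (H ≃ₗᵢ[ℂ] H)) (hX : ∀ r s, X (r + s) = X r * X s) (ξ : H) (δ : ℝ)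
    (h : ∀ r, ‖X r ξ - ξ‖ ≤ δ) : ‖ξ - Q X ξ‖ ≤ δ := by
  suffices H : ∃ v : H, ‖ξ - v‖ ≤ δ ∧ ∀ r, X r v = v by
    obtain ⟨v, h1, h2⟩ := H
    exact (Q_min X ξ v h2).trans h1
  let _ : InnerProductSpace ℝ H := InnerProductSpace.complexToReal
  set K : Set H := closure (convexHull ℝ (Set.range fun r => X r ξ)) with hK
  have hKc : Convex ℝ K := (convex_convexHull ℝ _).closure
  have hKcl : IsClosed K := isClosed_closure
  have hne : K.Nonempty := ⟨X 0 ξ, subset_closure (subset_convexHull ℝ _ ⟨0, rfl⟩)⟩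
  have hinv : ∀ r, ∀ v ∈ K, X r v ∈ K := by
    intro g v hv
    have : K ⊆ (X g) ⁻¹' K := by
      apply closure_minimal
      · apply convexHull_min
        · rintro _ ⟨k, rfl⟩
          refine subset_closure (subset_convexHull ℝ _ ⟨g + k, ?_⟩)
          show X (g + k) ξ = X g (X k ξ)
          rw [hX]
          rfl
        · intro a ha b hb s t hs ht hst
          simp only [Set.mem_preimage, map_add] at *
          have h1 := hKc ha hb hs ht hst
          have e1 : ∀ (s : ℝ) (a : H), X g (s • a) = s • X g a := by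
            intro s a
            have := (X g).map_smul (s : ℂ) a
            simpa using this
          rw [e1, e1]
          exact h1
      · exact hKcl.preimage (X g).continuous
    exact this hv
  have hball : K ⊆ Metric.closedBall ξ δ := by
    apply closure_minimal
    · apply convexHull_min
      · rintro _ ⟨k, rfl⟩
        rw [Metric.mem_closedBall, dist_eq_norm]
        exact h k
      · exact convex_closedBall ξ δ
    · exact Metric.isClosed_closedBall
  obtain ⟨v, hvK, hv⟩ := exists_norm_eq_iInf_of_complete_convex hne hKcl.isComplete hKc (0 : H)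
  have hmin : ∀ w ∈ K, ‖v‖ ≤ ‖w‖ := by
    intro w hw
    have h1 : ‖(0 : H) - v‖ ≤ ‖(0 : H) - w‖ := by
      rw [hv]
      exact ciInf_le ⟨0, by rintro _ ⟨y, rfl⟩; exact norm_nonneg _⟩ (⟨w, hw⟩ : K)
    simpa using h1
  refine ⟨v, ?_, ?_⟩
  · have := hball hvK
    rw [Metric.mem_closedBall, dist_eq_norm, norm_sub_rev] at this
    exact this
  · intro g
    have h1 := hinv g v hvK
    have h2 : ‖X g v‖ = ‖v‖ := (X g).norm_map v
    have h3 : (1/2 : ℝ) • (X g v) + (1/2 : ℝ) • v ∈ K :=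
      hKc h1 hvK (by norm_num) (by norm_num) (by norm_num)
    have h4 := hmin _ h3
    rw [← smul_add, norm_smul] at h4
    have h5 : ‖(1/2 : ℝ)‖ = 1/2 := by norm_num
    rw [h5] at h4
    have h6 := parallelogram_law_with_norm ℂ (X g v) v
    have h7 : ‖X g v - v‖ * ‖X g v - v‖ ≤ 0 := by
      rw [h2] at h6
      nlinarith [norm_nonneg v, norm_nonneg (X g v + v)]
    have h8 : ‖X g v - v‖ = 0 := by nlinarith [norm_nonneg (X g v - v)]
    exact sub_eq_zero.1 (norm_eq_zero.1 h8)

/-- vectors close to their projections are almost fixed -/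
theorem disp (X : R → (H ≃ₗᵢ[ℂ] H)) (v : H) (r : R) : ‖X r v - v‖ ≤ 2 * ‖v - Q X v‖ := by
  have h1 : X r v - v = X r (v - Q X v) - (v - Q X v) := by
    rw [map_sub, Q_mem X v r]
    abel
  rw [h1]
  refine (norm_sub_le _ _).trans ?_
  rw [(X r).norm_map]
  linarith

/-- commutation of a symmetric operator with a group of unitaries -/
theorem comm_of_sub (X : R → (H ≃ₗᵢ[ℂ] H)) (hX : ∀ r s, X (r + s) = X r * X s) (S : H →L[ℂ] H)
    (hS : ∀ v w, inner ℂ (S v) w = inner ℂ v (S w)) (h : ∀ r v, S (X r (S v)) = X r (S v)) :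
    ∀ r v, S (X r v) = X r (S v) := by
  intro r v
  apply ext_inner_right ℂ
  intro w
  calc inner ℂ (S (X r v)) w = inner ℂ v (X (-r) (S w)) := by rw [hS, x_inner X hX]
    _ = inner ℂ v (S (X (-r) (S w))) := by rw [h (-r) w]
    _ = inner ℂ (X r (S v)) (S w) := by rw [← hS, ← x_inner X hX]
    _ = inner ℂ (X r (S v)) w := by rw [← hS, h r v]

/-- a symmetric operator which commutes with `X` commutes with the projection -/
theorem comm_Q (X : R → (H ≃ₗᵢ[ℂ] H)) (S : H →L[ℂ] H)
    (hS : ∀ v w, inner ℂ (S v) w = inner ℂ v (S w)) (h : ∀ r v, S (X r v) = X r (S v)) (v : H) :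
    Q X (S v) = S (Q X v) := by
  have h1 : ∀ v, Q X (S (Q X v)) = S (Q X v) := by
    intro v
    rw [Q_eq]
    intro r
    rw [← h, Q_mem]
  apply ext_inner_right ℂ
  intro w
  calc inner ℂ (Q X (S v)) w = inner ℂ v (S (Q X w)) := by rw [Q_symm, hS]
    _ = inner ℂ v (Q X (S (Q X w))) := by rw [h1 w]
    _ = inner ℂ (S (Q X v)) (Q X w) := by rw [← Q_symm, ← hS]
    _ = inner ℂ (S (Q X v)) w := by rw [← Q_symm, h1 v]

end Pool.Agent.N495.HS
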