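import Pool.Agent.N495.HS.HexA

/-!
# Project HS, leaf HEX, part B: the relations between the projections, gradient descent
-/

set_option autoImplicit false

namespace Pool.Agent.N495.HS

open Pool.Agent.N298.HS

section rel

variable {R : Type} [CommRing R] {H : Type} [NormedAddCommGroup H] [InnerProductSpace ℂ H]

/-- the relations of the group of type `A₂` -/
structure Hex (x : Fin 6 → R → (H ≃ₗᵢ[ℂ] H)) (σ : Fin 6 → R) : Prop where
  sq : ∀ i, σ i * σ i = 1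
  add : ∀ i r s, x i (r + s) = x i r * x i s
  com : ∀ i r s, x i r * x (i + 1) s = x (i + 1) s * x i r
  mul : ∀ i r s, x i r * x (i + 2) s = x (i + 1) (σ i * r * s) * x (i + 2) s * x i r

variable {x : Fin 6 → R → (H ≃ₗᵢ[ℂ] H)} {σ : Fin 6 → R}

theorem Hex.com' (h : Hex x σ) (i : Fin 6) (r s : R) (v : H) :
    x i r (x (i + 1) s v) = x (i + 1) s (x i r v) :=
  congrArg (fun T : H ≃ₗᵢ[ℂ] H => T v) (h.com i r s)

theorem Hex.com2 (h : Hex x σ) (i : Fin 6) (r s : R) :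
    x (i + 1) r * x (i + 2) s = x (i + 2) s * x (i + 1) r := by
  have h1 := h.com (i + 1) r s
  have e : i + 1 + 1 = i + 2 := by rw [add_assoc]; rfl
  rwa [e] at h1

theorem Hex.com2' (h : Hex x σ) (i : Fin 6) (r s : R) (v : H) :
    x (i + 1) r (x (i + 2) s v) = x (i + 2) s (x (i + 1) r v) :=
  congrArg (fun T : H ≃ₗᵢ[ℂ] H => T v) (h.com2 i r s)

theorem Hex.mul' (h : Hex x σ) (i : Fin 6) (r s : R) (v : H) :
    x i r (x (i + 2) s v) = x (i + 1) (σ i * r * s) (x (i + 2) s (x i r v)) :=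
  congrArg (fun T : H ≃ₗᵢ[ℂ] H => T v) (h.mul i r s)

variable [CompleteSpace H]

theorem Hex.c1 (h : Hex x σ) (i : Fin 6) (v : H) :
    Q (x i) (Q (x (i + 1)) v) = Q (x (i + 1)) (Q (x i) v) := by
  apply comm_Q (x i) (Q (x (i + 1))) (Q_symm _)
  apply comm_of_sub (x i) (h.add i) _ (Q_symm _)
  intro r v
  rw [Q_eq]
  intro s
  rw [← h.com', Q_mem]

theorem Hex.c1' (h : Hex x σ) (i : Fin 6) (v : H) :
    Q (x (i + 1)) (Q (x (i + 2)) v) = Q (x (i + 2)) (Q (x (i + 1)) v) := by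
  have h1 := h.c1 (i + 1) v
  have e : i + 1 + 1 = i + 2 := by rw [add_assoc]; rfl
  rwa [e] at h1

theorem Hex.c4 (h : Hex x σ) (i : Fin 6) (v : H) :
    Q (x i) (Q (x (i + 2)) (Q (x (i + 1)) v)) = Q (x (i + 2)) (Q (x i) (Q (x (i + 1)) v)) := by
  set S : H →L[ℂ] H := (Q (x (i + 1))).comp (Q (x (i + 2))) with hS
  have hSe : ∀ v, S v = Q (x (i + 1)) (Q (x (i + 2)) v) := fun _ => rfl
  have hsym : ∀ v w, inner ℂ (S v) w = inner ℂ v (S w) := by
    intro v w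
    rw [hSe, hSe, Q_symm, Q_symm, h.c1']
  have hu1 : ∀ v s, x (i + 1) s (S v) = S v := by
    intro v s
    rw [hSe, Q_mem]
  have hu2 : ∀ v s, x (i + 2) s (S v) = S v := by
    intro v s
    rw [hSe, h.c1', Q_mem]
  have hcomm : ∀ r v, S (x i r v) = x i r (S v) := by
    apply comm_of_sub (x i) (h.add i) S hsym
    intro r v
    have h1 : ∀ s, x (i + 1) s (x i r (S v)) = x i r (S v) := by
      intro s
      rw [← h.com', hu1]
    have h2 : ∀ s, x (i + 2) s (x i r (S v)) = x i r (S v) := by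
      intro s
      have h3 := h.mul' i r s (S v)
      rw [hu2, h.com2', h1] at h3
      exact h3.symm
    rw [hSe, (Q_eq _ _).2 h2, (Q_eq _ _).2 h1]
  have hQ := comm_Q (x i) S hsym hcomm
  calc Q (x i) (Q (x (i + 2)) (Q (x (i + 1)) v)) = Q (x i) (S v) := by rw [hSe, h.c1']
    _ = S (Q (x i) v) := hQ v
    _ = Q (x (i + 2)) (Q (x (i + 1)) (Q (x i) v)) := by rw [hSe, h.c1']
    _ = _ := by rw [h.c1]

theorem Hex.c3 (h : Hex x σ) (h1 : S_HEIS) (i : Fin 6) (v w : H) (hv : Q (x i) v = v)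
    (hw : Q (x (i + 2)) w = w) (hv1 : Q (x (i + 1)) v = 0) (hw1 : Q (x (i + 1)) w = 0) :
    2 * ‖inner ℂ v w‖ ^ 2 ≤ ‖v‖ ^ 2 * ‖w‖ ^ 2 := by
  refine h1 R H (x i) (x (i + 2)) (x (i + 1)) (σ i) (h.sq i) (h.add (i + 1))
    (fun r s => h.com i r s) (fun r s => (h.com2 i s r).symm) (h.mul i) v w ((Q_eq _ _).1 hv)
    ((Q_eq _ _).1 hw) fun u hu => ⟨?_, ?_⟩
  · rw [← (Q_eq (x (i + 1)) u).2 hu, Q_symm, hv1, inner_zero_right]
  · rw [← (Q_eq (x (i + 1)) u).2 hu, Q_symm, hw1, inner_zero_right]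

end rel

section descent

variable {H : Type} [NormedAddCommGroup H] [InnerProductSpace ℂ H]

/-- the projection to the triple intersection -/
noncomputable def PW (P : Fin 6 → H →L[ℂ] H) (i : Fin 6) (z : H) : H :=
  P (i - 1) (P (i + 1) (P i z))

/-- the four neighbours -/
noncomputable def Lp (f : Fin 6 → H) (i : Fin 6) : H :=
  (4 : ℂ) • f i - f (i + 1) - f (i + 2) - f (i - 1) - f (i - 2)

/-- the gradient -/
noncomputable def Gr (P : Fin 6 → H →L[ℂ] H) (f : Fin 6 → H) (i : Fin 6) : H := PW P i (Lp f i)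

/-- the energy -/
noncomputable def En (f : Fin 6 → H) : ℝ := ∑ i, (‖f i - f (i + 1)‖ ^ 2 + ‖f i - f (i + 2)‖ ^ 2)

/-- the square of the norm -/
noncomputable def Nm (f : Fin 6 → H) : ℝ := ∑ i, ‖f i‖ ^ 2

/-- the relations used -/
structure Pr (P : Fin 6 → H →L[ℂ] H) : Prop where
  idem : ∀ i v, P i (P i v) = P i v
  symm : ∀ i v w, inner ℂ (P i v) w = inner ℂ v (P i w)
  c1 : ∀ i v, P i (P (i + 1) v) = P (i + 1) (P i v)
  c4 : ∀ i v, P i (P (i + 2) (P (i + 1) v)) = P (i + 2) (P i (P (i + 1) v))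

/-- tuples of vectors in the triple intersections -/
def InW (P : Fin 6 → H →L[ℂ] H) (f : Fin 6 → H) : Prop :=
  ∀ i, P i (f i) = f i ∧ P (i - 1) (f i) = f i ∧ P (i + 1) (f i) = f i

variable {P : Fin 6 → H →L[ℂ] H}

theorem PW_mem (h : Pr P) (i : Fin 6) (z : H) :
    P i (PW P i z) = PW P i z ∧ P (i - 1) (PW P i z) = PW P i z ∧
      P (i + 1) (PW P i z) = PW P i z := by
  have e1 : i - 1 + 1 = i := sub_add_cancel i 1
  have e2 : i - 1 + 2 = i + 1 := by
    revert i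
    decide
  have h1 : ∀ v, P (i - 1) (P i v) = P i (P (i - 1) v) := by
    intro v
    have := h.c1 (i - 1) v
    rwa [e1] at this
  have h4 : ∀ v, P (i - 1) (P (i + 1) (P i v)) = P (i + 1) (P (i - 1) (P i v)) := by
    intro v
    have := h.c4 (i - 1) v
    rwa [e1, e2] at this
  unfold PW
  refine ⟨?_, ?_, ?_⟩
  · rw [← h1, h.c1, h.idem]
  · rw [h.idem]
  · rw [h4, h.idem]

theorem PW_inner (h : Pr P) {g : Fin 6 → H} (hg : InW P g) (i : Fin 6) (z : H) :
    inner ℂ (PW P i z) (g i) = inner ℂ z (g i) := by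
  unfold PW
  rw [h.symm, (hg i).2.1, h.symm, (hg i).2.2, h.symm, (hg i).1]

theorem Gr_InW (h : Pr P) (f : Fin 6 → H) : InW P (Gr P f) := fun i => PW_mem h i _

theorem sum_shift (c : Fin 6) (F : Fin 6 → ℝ) : ∑ i, F (i + c) = ∑ i, F i :=
  Equiv.sum_comp (Equiv.addRight c) F

theorem bilin (f g : Fin 6 → H) :
    ∑ i, ((inner ℂ (f i - f (i + 1)) (g i - g (i + 1))).re +
      (inner ℂ (f i - f (i + 2)) (g i - g (i + 2))).re) = ∑ i, (inner ℂ (Lp f i) (g i)).re := by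
  have h1 := sum_shift 1 (fun j => (inner ℂ (f (j - 1) - f j) (g j)).re)
  have h2 := sum_shift 2 (fun j => (inner ℂ (f (j - 2) - f j) (g j)).re)
  simp only [add_sub_cancel_right] at h1 h2
  have h3 : ∑ i, ((inner ℂ (f i - f (i + 1)) (g i - g (i + 1))).re +
      (inner ℂ (f i - f (i + 2)) (g i - g (i + 2))).re) =
      ∑ i, ((inner ℂ (f i - f (i + 1)) (g i)).re + (inner ℂ (f i - f (i + 2)) (g i)).re) -
        ∑ i, (inner ℂ (f i - f (i + 1)) (g (i + 1))).re -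
        ∑ i, (inner ℂ (f i - f (i + 2)) (g (i + 2))).re := by
    rw [← Finset.sum_sub_distrib, ← Finset.sum_sub_distrib]
    refine Finset.sum_congr rfl fun i _ => ?_
    rw [inner_sub_right, inner_sub_right, Complex.sub_re, Complex.sub_re]
    ring
  rw [h3, h1, h2, ← Finset.sum_sub_distrib, ← Finset.sum_sub_distrib]
  refine Finset.sum_congr rfl fun i _ => ?_
  unfold Lp
  simp only [inner_sub_left, inner_smul_left, Complex.sub_re]
  have h4 : ((starRingEnd ℂ) 4 * inner ℂ (f i) (g i)).re = 4 * (inner ℂ (f i) (g i)).re := by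
    have : (starRingEnd ℂ) 4 = ((4 : ℝ) : ℂ) := by
      rw [Complex.ofReal_ofNat]
      exact map_ofNat _ 4
    rw [this, Complex.re_ofReal_mul]
  rw [h4]
  ring

theorem sq_step (a b : H) : ‖a - (1 / 8 : ℂ) • b‖ ^ 2 =
    ‖a‖ ^ 2 - 1 / 4 * (inner ℂ a b).re + 1 / 64 * ‖b‖ ^ 2 := by
  have h1 := norm_sub_sq (𝕜 := ℂ) a ((1 / 8 : ℂ) • b)
  rw [h1, inner_smul_right, norm_smul]
  have h2 : ((1 / 8 : ℂ)) = ((1 / 8 : ℝ) : ℂ) := by push_cast; rfl
  have h3 : ‖(1 / 8 : ℂ)‖ = 1 / 8 := by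
    rw [h2, Complex.norm_real]
    norm_num
  rw [h3]
  have h4 : RCLike.re ((1 / 8 : ℂ) * inner ℂ a b) = 1 / 8 * (inner ℂ a b).re := by
    rw [h2]
    exact Complex.re_ofReal_mul _ _
  rw [h4]
  ring

theorem En_le (g : Fin 6 → H) : En g ≤ 8 * Nm g := by
  have h1 : ∀ a b : H, ‖a - b‖ ^ 2 ≤ 2 * ‖a‖ ^ 2 + 2 * ‖b‖ ^ 2 := by
    intro a b
    have := norm_sub_le a b
    nlinarith [norm_nonneg a, norm_nonneg b, norm_nonneg (a - b), sq_nonneg (‖a‖ - ‖b‖)]
  have h2 := sum_shift 1 (fun j => ‖g j‖ ^ 2)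
  have h3 := sum_shift 2 (fun j => ‖g j‖ ^ 2)
  calc En g ≤ ∑ i, ((2 * ‖g i‖ ^ 2 + 2 * ‖g (i + 1)‖ ^ 2) + (2 * ‖g i‖ ^ 2 + 2 * ‖g (i + 2)‖ ^ 2)) :=
        Finset.sum_le_sum fun i _ => add_le_add (h1 _ _) (h1 _ _)
    _ = 8 * Nm g := by
        simp only [Finset.sum_add_distrib, ← Finset.mul_sum]
        rw [h2, h3]
        unfold Nm
        ring

theorem En_nonneg (g : Fin 6 → H) : 0 ≤ En g :=
  Finset.sum_nonneg fun i _ => by positivity

theorem Nm_nonneg (g : Fin 6 → H) : 0 ≤ Nm g :=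
  Finset.sum_nonneg fun i _ => by positivity

/-- one step of the descent -/
noncomputable def stp (P : Fin 6 → H →L[ℂ] H) (f : Fin 6 → H) : Fin 6 → H :=
  fun i => f i - (1 / 8 : ℂ) • Gr P f i

theorem stp_InW (h : Pr P) {f : Fin 6 → H} (hf : InW P f) : InW P (stp P f) := by
  intro i
  have hg := Gr_InW h f i
  unfold stp
  refine ⟨?_, ?_, ?_⟩
  · rw [map_sub, map_smul, (hf i).1, hg.1]
  · rw [map_sub, map_smul, (hf i).2.1, hg.2.1]
  · rw [map_sub, map_smul, (hf i).2.2, hg.2.2]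

theorem stp_En (h : Pr P) (f : Fin 6 → H) : En (stp P f) ≤ En f - 1 / 8 * Nm (Gr P f) := by
  set g := Gr P f with hg
  have h1 : ∀ i j, stp P f i - stp P f j = (f i - f j) - (1 / 8 : ℂ) • (g i - g j) := by
    intro i j
    unfold stp
    rw [smul_sub]
    abel
  have h2 : En (stp P f) = En f - 1 / 4 * (∑ i, ((inner ℂ (f i - f (i + 1)) (g i - g (i + 1))).re +
      (inner ℂ (f i - f (i + 2)) (g i - g (i + 2))).re)) + 1 / 64 * En g := by
    unfold En
    rw [Finset.mul_sum, Finset.mul_sum, ← Finset.sum_sub_distrib, ← Finset.sum_add_distrib]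
    refine Finset.sum_congr rfl fun i _ => ?_
    rw [h1, h1, sq_step, sq_step]
    ring
  have h3 : ∑ i, (inner ℂ (Lp f i) (g i)).re = Nm g := by
    unfold Nm
    refine Finset.sum_congr rfl fun i _ => ?_
    rw [← PW_inner h (Gr_InW h f)]
    have : PW P i (Lp f i) = g i := rfl
    rw [this]
    have h4 := inner_self_eq_norm_sq (𝕜 := ℂ) (g i)
    exact h4
  rw [h2, bilin, h3]
  have h5 := En_le g
  linarith

theorem descent_sum (h : Pr P) (f : Fin 6 → H) (n : ℕ) :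
    En ((stp P)^[n] f) + 1 / 8 * ∑ m ∈ Finset.range n, Nm (Gr P ((stp P)^[m] f)) ≤ En f := by
  induction n with
  | zero => simp
  | succ n ih =>
    rw [Function.iterate_succ_apply', Finset.sum_range_succ]
    have h1 := stp_En h ((stp P)^[n] f)
    linarith

theorem descent_InW (h : Pr P) {f : Fin 6 → H} (hf : InW P f) (n : ℕ) :
    InW P ((stp P)^[n] f) := by
  induction n with
  | zero => exact hf
  | succ n ih =>
    rw [Function.iterate_succ_apply']
    exact stp_InW h ih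

theorem descent (h : Pr P) {f : Fin 6 → H} (hf : InW P f) (δ : ℝ) (hδ : 0 ≤ δ)
    (hE : En f ≤ 432 * δ ^ 2) (K : ℕ) (hK : 1769472 ≤ (K : ℝ)) :
    ∃ g : Fin 6 → H, InW P g ∧ Nm (Gr P g) ≤ δ ^ 2 / 512 ∧ ‖g 0 - f 0‖ ≤ 8 * K * δ := by
  have hsum : ∀ n, ∑ m ∈ Finset.range n, Nm (Gr P ((stp P)^[m] f)) ≤ 3456 * δ ^ 2 := by
    intro n
    have h1 := descent_sum h f n
    have h2 := En_nonneg ((stp P)^[n] f)
    linarith
  have hG : ∀ m, ‖Gr P ((stp P)^[m] f) 0‖ ≤ 64 * δ := by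
    intro m
    have h1 : Nm (Gr P ((stp P)^[m] f)) ≤ 3456 * δ ^ 2 := by
      refine le_trans ?_ (hsum (m + 1))
      rw [Finset.sum_range_succ]
      have : 0 ≤ ∑ k ∈ Finset.range m, Nm (Gr P ((stp P)^[k] f)) :=
        Finset.sum_nonneg fun k _ => Nm_nonneg _
      linarith
    have h2 : ‖Gr P ((stp P)^[m] f) 0‖ ^ 2 ≤ Nm (Gr P ((stp P)^[m] f)) :=
      Finset.single_le_sum (f := fun i => ‖Gr P ((stp P)^[m] f) i‖ ^ 2)
        (fun i _ => by positivity) (Finset.mem_univ 0)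
    have h3 : ‖Gr P ((stp P)^[m] f) 0‖ ^ 2 ≤ (64 * δ) ^ 2 := by nlinarith [sq_nonneg δ]
    exact (sq_le_sq₀ (norm_nonneg _) (by positivity)).1 h3
  have hd : ∀ n, ‖(stp P)^[n] f 0 - f 0‖ ≤ 8 * n * δ := by
    intro n
    induction n with
    | zero => simp
    | succ n ih =>
      rw [Function.iterate_succ_apply']
      have h1 : stp P ((stp P)^[n] f) 0 - f 0 =
          ((stp P)^[n] f 0 - f 0) - (1 / 8 : ℂ) • Gr P ((stp P)^[n] f) 0 := by
        unfold stp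
        abel
      rw [h1]
      refine (norm_sub_le _ _).trans ?_
      rw [norm_smul]
      have h2 : ‖(1 / 8 : ℂ)‖ = 1 / 8 := by simp
      rw [h2]
      have h3 := hG n
      push_cast
      linarith
  obtain ⟨m, hm, hmN⟩ : ∃ m ∈ Finset.range K, Nm (Gr P ((stp P)^[m] f)) ≤ δ ^ 2 / 512 := by
    by_contra hc
    push Not at hc
    have hKpos : 0 < K := by
      have : (0 : ℝ) < K := by linarith
      exact_mod_cast this
    have h1 : ∑ m ∈ Finset.range K, (δ ^ 2 / 512) <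
        ∑ m ∈ Finset.range K, Nm (Gr P ((stp P)^[m] f)) :=
      Finset.sum_lt_sum_of_nonempty ⟨0, Finset.mem_range.2 hKpos⟩ fun m hm => hc m hm
    rw [Finset.sum_const, Finset.card_range, nsmul_eq_mul] at h1
    have h2 := hsum K
    have h3 : 1769472 * (δ ^ 2 / 512) ≤ (K : ℝ) * (δ ^ 2 / 512) :=
      mul_le_mul_of_nonneg_right hK (by positivity)
    linarith
  refine ⟨(stp P)^[m] f, descent_InW h hf m, hmN, (hd m).trans ?_⟩
  have : (m : ℝ) ≤ K := by exact_mod_cast (Finset.mem_range.1 hm).le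
  have h2 : 8 * (m : ℝ) * δ ≤ 8 * K * δ := by
    apply mul_le_mul_of_nonneg_right _ hδ
    linarith
  exact h2

end descent

end Pool.Agent.N495.HS
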